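import Pool.Agent.H12.KP.Targets4

/-!
# Project KEW, block (i): row HCERT
-/

namespace Pool.Agent.H71.KP

open Pool.Agent.H12.KP Polynomial TensorProduct

universe u v

theorem pf_HCERT (hCO : S_COMPL.{u}) (hAN : S_AHN.{u}) (hBC : S_BCH.{u}) (hCE : S_CERT.{u,u})
    (hAP : S_APX.{u,u}) (hTR : S_TRANS.{u}) : S_HCERT.{u} := by
  intro A B0 B1 B01 _ _ _ _ _ _ _ _ _ _ _ _ _ _ _ _ C p hp π ε hπ e a r hpe hε ha hea htf hM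
    b c b1 N j hFG hb hb' hsurj
  obtain ⟨Ah, _, _, hAh⟩ := hCO A π hπ
  have hret := hAP A Ah π hπ hAh
  obtain ⟨h1, h2, h3, h4⟩ := hBC A Ah B0 B1 B01 C π hπ hAh htf
  obtain ⟨-, -, hnoeth⟩ := hAN A Ah π hπ hAh
  have hN0 : IsNoetherianRing (Ah ⊗[A] B0) := hnoeth B0 inferInstance
  have hN1 : IsNoetherianRing (Ah ⊗[A] B1) := hnoeth B1 inferInstance
  have hNj : N ≤ j + N * p ^ r := by
    have : 1 ≤ p ^ r := Nat.one_le_pow _ _ hp.pos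
    nlinarith
  have hi0 : ∀ x : B0, (C.bc Ah).i0 ((1 : Ah) ⊗ₜ[A] x) = (1 : Ah) ⊗ₜ[A] C.i0 x := by
    intro x
    change Algebra.TensorProduct.map (AlgHom.id Ah Ah) C.i0 ((1 : Ah) ⊗ₜ[A] x) = _
    rw [Algebra.TensorProduct.map_tmul]
    rfl
  have hi1 : ∀ x : B1, (C.bc Ah).i1 ((1 : Ah) ⊗ₜ[A] x) = (1 : Ah) ⊗ₜ[A] C.i1 x := by
    intro x
    change Algebra.TensorProduct.map (AlgHom.id Ah Ah) C.i1 ((1 : Ah) ⊗ₜ[A] x) = _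
    rw [Algebra.TensorProduct.map_tmul]
    rfl
  have hT : (C.bc Ah).T = (1 : Ah) ⊗ₜ[A] C.T := rfl
  have hone : ∀ x y : B01, ((1 : Ah) ⊗ₜ[A] x) * ((1 : Ah) ⊗ₜ[A] y) = (1 : Ah) ⊗ₜ[A] (x * y) := by
    intro x y
    rw [Algebra.TensorProduct.tmul_mul_tmul, mul_one]
  have hpow : ∀ (x : B01) (n : ℕ), ((1 : Ah) ⊗ₜ[A] x) ^ n = (1 : Ah) ⊗ₜ[A] (x ^ n) := by
    intro x n
    rw [Algebra.TensorProduct.tmul_pow, one_pow]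
  refine hTR A Ah B0 B1 B01 (fun R hR => hret R hR) C π (r * e + a) (p ^ r) (j + N * p ^ r) b c b1
    ?_
  refine hCE Ah (Ah ⊗[A] B0) (Ah ⊗[A] B1) (Ah ⊗[A] B01) (C.bc Ah) p hp (algebraMap A Ah π)
    (algebraMap A Ah ε) e a r ?_ (hε.map _) ha hea hAh.compl h1 (h4 hM) (1 ⊗ₜ b) (1 ⊗ₜ c) (1 ⊗ₜ b1)
    N j (h2 _ hFG (hsurj _ hNj)) ?_ ?_ (fun N' hN' => h3 N' (hsurj N' hN'))
  · rw [← map_pow, ← map_mul, ← hpe, map_natCast]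
  · rw [hi0, hi1, hT, hi0, hpow, hone, hb]
  · obtain ⟨b', hb'⟩ := hb'
    obtain ⟨d, hd⟩ := hb'
    refine ⟨1 ⊗ₜ b', 1 ⊗ₜ d, ?_⟩
    rw [hi0, hone]
    have e1 : (1 : Ah ⊗[A] B01) = (1 : Ah) ⊗ₜ[A] (1 : B01) := rfl
    rw [e1, ← TensorProduct.tmul_sub, hd, ← Algebra.smul_def, TensorProduct.tmul_smul]
    rw [Algebra.TensorProduct.algebraMap_apply, Algebra.TensorProduct.tmul_mul_tmul, one_mul,
      mul_one, TensorProduct.smul_tmul', Algebra.smul_def, mul_one]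
    rfl

end Pool.Agent.H71.KP
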