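import Pool.Agent.H12.KP.Targets4

/-!
# Project KEW, block (i): row P1
-/

namespace Pool.Agent.H71.KP

open Pool.Agent.H12.KP Polynomial TensorProduct

universe u v

theorem loc_mul {A : Type u} {D : Type v} [CommRing A] [CommRing D] [Algebra A D]
    (𝒟 : ℕ → Submodule A D) [GradedAlgebra 𝒟] {L : Type u} [Field L] [Algebra D L]
    {P : Ideal D} (hP : P.IsPrime) {z z' : L} (hz : z ∈ Loc 𝒟 L P) (hz' : z' ∈ Loc 𝒟 L P) :
    z * z' ∈ Loc 𝒟 L P := by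
  obtain ⟨d, a, ha, b, hb, hbP, h⟩ := hz
  obtain ⟨d', a', ha', b', hb', hbP', h'⟩ := hz'
  refine ⟨d + d', a * a', SetLike.mul_mem_graded ha ha', b * b', SetLike.mul_mem_graded hb hb',
    fun h0 => ?_, ?_⟩
  · rcases hP.mem_or_mem h0 with h1 | h1
    · exact hbP h1
    · exact hbP' h1
  · rw [map_mul, map_mul, ← h, ← h']
    ring

theorem loc_inv {A : Type u} {D : Type v} [CommRing A] [CommRing D] [IsDomain D] [Algebra A D]
    (𝒟 : ℕ → Submodule A D) [GradedAlgebra 𝒟] {L : Type u} [Field L] [Algebra D L]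
    [IsFractionRing D L] {z : L} (hz : z ∈ Loc 𝒟 L ⊥) (h0 : z ≠ 0) : z⁻¹ ∈ Loc 𝒟 L ⊥ := by
  obtain ⟨d, a, ha, b, hb, hbP, h⟩ := hz
  have hb0 : b ≠ 0 := fun e => hbP (by rw [e]; exact Ideal.zero_mem _)
  have hinj := IsFractionRing.injective D L
  have hb1 : algebraMap D L b ≠ 0 := fun e => hb0 (hinj (by rw [e, map_zero]))
  have ha1 : algebraMap D L a ≠ 0 := by
    rw [← h]
    exact mul_ne_zero h0 hb1
  refine ⟨d, b, hb, a, ha, fun e => ?_, ?_⟩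
  · rw [Ideal.mem_bot] at e
    exact ha1 (by rw [e, map_zero])
  · rw [← h]
    field_simp

theorem pf_P1 (hR : S_RED.{u}) (hC : S_CORE.{u}) : S_P1.{u} := by
  intro A D _ _ _ _ _ _ _ _ 𝒟 _ L _ _ _ π hπ hcur p hp ε e a r hpe hε ha hea x hx h hh hh0 hy
  have hn : 1 ≤ r * e + a := by omega
  have hq : 1 ≤ p ^ r := Nat.one_le_pow _ _ hp.pos
  obtain ⟨m, α, β, hα, hβ, hβ0, hβy, g1, hg1, hg10, v1, hv1, hv10, hv1i, hh1⟩ :=
    hR A D 𝒟 L π hcur (r * e + a) (p ^ r) hn hq x hx h hh hh0 hy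
  obtain ⟨ξ, hξ, hξ0, ⟨g, hg, hg0, v, hv, hv0, hvi, hξe⟩, hoth⟩ :=
    hC A D 𝒟 L π hπ hcur p hp ε e a r hpe hε ha hea x hx m α β hα hβ hβ0 hβy
  have hxp : x.IsPrime := hx.1.1
  have hbp : (⊥ : Ideal D).IsPrime := Ideal.isPrime_bot
  refine ⟨ξ, hξ, hξ0, ⟨g * g1⁻¹, loc_mul 𝒟 hbp hg (loc_inv 𝒟 hg1 hg10),
    mul_ne_zero hg0 (inv_ne_zero hg10), v * v1⁻¹, loc_mul 𝒟 hxp hv hv1i,
    mul_ne_zero hv0 (inv_ne_zero hv10), ?_, ?_⟩, hoth⟩
  · rw [mul_inv, inv_inv]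
    exact loc_mul 𝒟 hxp hvi hv1
  · rw [hξe, hh1]
    set u : L := 1 + algebraMap D L (algebraMap A D π) ^ (r * e + a) *
      (algebraMap D L α / algebraMap D L β) with hu
    have h1 : g1 ^ p ^ r ≠ 0 := pow_ne_zero _ hg10
    rw [mul_pow, inv_pow]
    field_simp

end Pool.Agent.H71.KP
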